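import Pool.Agent.H77.PM.Targets

/-!
Row ISA of the board pmh_modules (MP_5607ba_lc).
-/

set_option autoImplicit false

open Set Filter Topology

namespace Pool.Agent.H4.PM

open Pool.Agent.H77.PM

theorem pf_ISA (hSAM : T_SAM) (hCLF : T_CLF) : T_ISA := by
  intro ι ar Z _ r hr x y hFD hxy
  have hsame := hxy
  obtain ⟨S, T, ⟨p, hp, hx⟩, ⟨p', hp', hy⟩, ⟨e, he1, he2⟩⟩ := hxy
  subst hx
  subst hy
  have hcl : IsClosed (range p) := hCLF S.M p hFD
  have hsurj : ∀ z : S.M, ∃ i, p i = z := by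
    intro z
    have h1 : z ∈ closure (range p) := hp.2 z
    rw [hcl.closure_eq] at h1
    exact h1
  have hFD' : FD (code T p') := by
    refine Set.Finite.subset hFD ?_
    rintro d ⟨i, j, hij⟩
    obtain ⟨i', hi'⟩ := hsurj (e.symm (p' i))
    obtain ⟨j', hj'⟩ := hsurj (e.symm (p' j))
    refine ⟨i', j', ?_⟩
    rw [← hij]
    change dist (p i') (p j') = dist (p' i) (p' j)
    rw [hi', hj', ← he1, e.apply_symm_apply, e.apply_symm_apply]
  have hcl' : IsClosed (range p') := hCLF T.M p' hFD'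
  obtain ⟨g, hg1, hg2⟩ := hSAM ι ar Z S T p p' hp.1 hcl hp'.1 hcl' hsame
  refine ⟨hFD', g, fun a => ?_⟩
  refine Prod.ext ?_ ?_
  · change dist (p' (g (a 0))) (p' (g (a 1))) = dist (p (a 0)) (p (a 1))
    exact hg1 _ _
  · funext i
    exact hg2 i (fun j : Fin (ar i) => a ⟨(j : ℕ) + 2, by have := j.2; have := hr i; omega⟩)

end Pool.Agent.H4.PM
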