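import Pool.Agent.H77.PM.Targets

/-!
Row SEL of the board pmh_modules (MP_5607ba_lc).
-/

set_option autoImplicit false

open Set Filter Topology

namespace Pool.Agent.H4.PM

open Pool.Agent.H77.PM

/-- the choice for one sequence -/
private theorem one_seq (hSEP : T_SEP) (hCLO : T_CLO) (M : Type) [MetricSpace M]
    [CompleteSpace M] (x : ℕ → M) : ∃ (P : Finset M) (Q : Finset ℕ → ℕ → Prop),
    (∀ K, ∀ᶠ e in (hyperfilter ℕ : Filter ℕ), Q K e) ∧
    ∀ K : ℕ → ℕ, StrictMono K → (∀ n, Q ((Finset.range n).image K) (K n)) →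
      ∀ s : Set ℕ, IsClosed ((P : Set M) ∪ (fun n => x (K n)) '' s) := by
  rcases hSEP M x with ⟨p, hp⟩ | ⟨ε, hε, hsep⟩
  · refine ⟨{p}, fun K e => dist (x e) p < 1 / ((K.card : ℝ) + 1), fun K => ?_, ?_⟩
    · exact Metric.tendsto_nhds.1 hp _ (by positivity)
    · intro K hK hQ s
      have hcard : ∀ n, ((Finset.range n).image K).card = n := fun n => by
        rw [Finset.card_image_of_injective _ hK.injective, Finset.card_range]
      have hlim : Tendsto (fun n => x (K n)) atTop (𝓝 p) := by
        rw [Metric.tendsto_atTop]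
        intro δ hδ
        obtain ⟨N, hN⟩ := exists_nat_one_div_lt hδ
        refine ⟨N, fun n hn => ?_⟩
        have h1 := hQ n
        simp only [hcard n] at h1
        refine h1.trans (lt_of_le_of_lt ?_ hN)
        have h2 : (N : ℝ) ≤ n := by exact_mod_cast hn
        gcongr
      have h1 := (hCLO M (fun n => x (K n)) s).2 p hlim
      rw [Finset.coe_singleton, Set.singleton_union]
      exact h1
  · refine ⟨∅, fun K e => ∀ k ∈ K, ε ≤ dist (x e) (x k), fun K => ?_, ?_⟩
    · rw [Filter.eventually_all_finset]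
      intro k _
      exact hsep (x k)
    · intro K hK hQ s
      have h1 : ∀ m n, m < n → ε ≤ dist (x (K n)) (x (K m)) := by
        intro m n hmn
        exact hQ n (K m) (Finset.mem_image_of_mem K (Finset.mem_range.2 hmn))
      have h2 := (hCLO M (fun n => x (K n)) s).1 ⟨ε, hε, fun m n hmn => by
        rcases lt_or_gt_of_ne hmn with h | h
        · rw [dist_comm]
          exact h1 m n h
        · exact h1 n m h⟩
      rw [Finset.coe_empty, Set.empty_union]
      exact h2

theorem pf_SEL (hREC : T_REC) (hSEP : T_SEP) (hCLO : T_CLO) : T_SEL := by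
  classical
  intro M _ _ W hinf
  set D : Set ℝ := range fun ab : M × M => dist ab.1 ab.2 with hD
  have hex : ∀ k : ℕ, ∃ ab : M × M, dist ab.1 ab.2 = (hinf.natEmbedding D k : ℝ) := fun k =>
    (hinf.natEmbedding D k).2
  choose ab hab using hex
  have hinj : Function.Injective fun k => dist (ab k).1 (ab k).2 := by
    intro k l h
    simp only [hab] at h
    exact (hinf.natEmbedding D).injective (Subtype.ext h)
  obtain ⟨Px, Qx, hQx, hPx⟩ := one_seq hSEP hCLO M fun k => (ab k).1
  obtain ⟨Py, Qy, hQy, hPy⟩ := one_seq hSEP hCLO M fun k => (ab k).2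
  set W' : Finset M := W ∪ Px ∪ Py with hW'
  set F : ℕ → ℕ → Finset M := fun l l' =>
    W' ∪ {(ab l).1, (ab l).2, (ab l').1, (ab l').2} with hF
  set R : ℕ → ℕ → ℕ → Prop := fun k l l' =>
    ∃ a ∈ F l l', ∃ b ∈ F l l', dist a b = dist (ab k).1 (ab k).2 with hR
  have hmono : ∀ k l l' m m', (F l l' ⊆ F m m') → R k l l' → R k m m' := by
    rintro k l l' m m' hs ⟨a, ha, b, hb, h⟩
    exact ⟨a, hs ha, b, hs hb, h⟩
  have hcount : ∀ l l', {k | R k l l'}.encard ≤ (((W'.card + 4) ^ 2 : ℕ) : ℕ∞) := by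
    intro l l'
    have h1 : {k | R k l l'}.encard ≤
        ((((F l l') ×ˢ (F l l')).image fun ab => dist ab.1 ab.2 : Finset ℝ) : Set ℝ).encard := by
      refine Set.encard_le_encard_of_injOn (f := fun k => dist (ab k).1 (ab k).2) ?_
        hinj.injOn
      rintro k ⟨a, ha, b, hb, h⟩
      rw [Finset.mem_coe, Finset.mem_image]
      exact ⟨(a, b), Finset.mem_product.2 ⟨ha, hb⟩, h⟩
    refine h1.trans ?_
    rw [Set.encard_coe_eq_coe_finsetCard]
    have h2 : (F l l').card ≤ W'.card + 4 :=
      (Finset.card_union_le _ _).trans (Nat.add_le_add_left Finset.card_le_four _)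
    have h3 : (((F l l') ×ˢ (F l l')).image fun ab => dist ab.1 ab.2).card ≤
        (W'.card + 4) ^ 2 := by
      refine Finset.card_image_le.trans ?_
      rw [Finset.card_product, pow_two]
      exact Nat.mul_le_mul h2 h2
    exact_mod_cast h3
  obtain ⟨K, hK, hKR, hKQ⟩ := hREC ((W'.card + 4) ^ 2) R (fun K e => Qx K e ∧ Qy K e) hcount
    (fun k l l' h => hmono k l l' l' l (by
      intro z hz
      simp only [hF, Finset.mem_union, Finset.mem_insert, Finset.mem_singleton] at hz ⊢
      tauto) h)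
    (fun k l l' h => hmono k l l l l' (by
      intro z hz
      simp only [hF, Finset.mem_union, Finset.mem_insert, Finset.mem_singleton] at hz ⊢
      tauto) h)
    (fun K => (hQx K).and (hQy K))
  refine ⟨W', fun n => (ab (K n)).1, fun n => (ab (K n)).2, ?_, fun s => ?_, ?_⟩
  · intro z hz
    rw [hW', Finset.mem_union, Finset.mem_union]
    exact Or.inl (Or.inl hz)
  · have h1 := hPx K hK (fun n => (hKQ n).1) s
    have h2 := hPy K hK (fun n => (hKQ n).2) s
    have h3 := (W.finite_toSet.isClosed.union h1).union h2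
    have h4 : (W : Set M) ∪ ((Px : Set M) ∪ (fun n => (ab (K n)).1) '' s) ∪
        ((Py : Set M) ∪ (fun n => (ab (K n)).2) '' s) =
        (W' : Set M) ∪ (fun n => (ab (K n)).1) '' s ∪ (fun n => (ab (K n)).2) '' s := by
      rw [hW', Finset.coe_union, Finset.coe_union]
      ext z
      simp only [Set.mem_union]
      tauto
    rw [← h4]
    exact h3
  · intro k a b ha hb hab'
    have key : ∀ c : M, (c ∈ W' ∨ ∃ l, l ≠ k ∧ (c = (ab (K l)).1 ∨ c = (ab (K l)).2)) →
        ∃ l, l ≠ k ∧ (c ∈ W' ∨ c = (ab (K l)).1 ∨ c = (ab (K l)).2) := by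
      rintro c (h | ⟨l, hl, h⟩)
      · exact ⟨k + 1, by omega, Or.inl h⟩
      · exact ⟨l, hl, Or.inr h⟩
    obtain ⟨l, hl, h1⟩ := key a ha
    obtain ⟨l', hl', h2⟩ := key b hb
    refine hKR k l l' hl hl' ⟨a, ?_, b, ?_, hab'⟩
    · simp only [hF, Finset.mem_union, Finset.mem_insert, Finset.mem_singleton]
      tauto
    · simp only [hF, Finset.mem_union, Finset.mem_insert, Finset.mem_singleton]
      tauto

end Pool.Agent.H4.PM
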